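import Mathlib

/-!
# The chain maximises the degree of noninvertibility of extended promotion

For every finite poset `P` with `n ≥ 1` elements, extended promotion on the `n!` labelings of `P`
has degree of noninvertibility at most `(n+2)(n+1)/6`, the value attained by the `n`-element chain.

Proof. The preimages of a labeling `M` correspond to chains in the set of sorted elements below
`M⁻¹(n)`. Revealing the element with the smallest label gives a recursive inequality for the
second moment of the number of these chains, and an inequality for the numbers of elements above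
and not below an element of a poset closes the induction.
-/

set_option autoImplicit false

open Finset
open scoped Classical

namespace Pool.Agent.Results.MP_180e15_co.ChainMaximises

/-- `y` is the `L`-successor of `x`: it lies strictly above `x` and has the smallest label among
the elements strictly above `x`. -/
def IsSuccessor {P : Type*} [PartialOrder P] (L : P → ℕ) (x y : P) : Prop :=
  x < y ∧ ∀ z : P, x < z → L y ≤ L z

/-- Membership in the promotion chain of `L`: it starts at the element with label `1` and goes
from each element to its `L`-successor, as long as there is one. -/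
inductive InPromotionChain {P : Type*} [PartialOrder P] (L : P → ℕ) : P → Prop
  | start (x : P) : L x = 1 → InPromotionChain L x
  | next (x y : P) : InPromotionChain L x → IsSuccessor L x y → InPromotionChain L y

/-- Extended promotion: an element outside the promotion chain has its label lowered by one; a
non-maximal element of the chain gets the label of its successor (the smallest label above it)
minus one; the maximal element of the chain gets the label `n`. -/
noncomputable def promotion {P : Type*} [PartialOrder P] [Fintype P] (L : P → ℕ) (x : P) : ℕ :=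
  if InPromotionChain L x then
    (if IsMax x then Fintype.card P else sInf (L '' Set.Ioi x) - 1)
  else L x - 1

/-- The labelings of `P`: bijections onto `{1, ..., n}`, where `n` is the number of elements of
`P` (injective functions with values in `{1, ..., n}`). -/
noncomputable def labelings (P : Type*) [Fintype P] : Finset (P → ℕ) :=
  (Fintype.piFinset fun _ : P => Finset.Icc 1 (Fintype.card P)).filter Function.Injective

/-- Degree of noninvertibility of a map `f` of the finite nonempty set `X` into itself. -/
noncomputable def degNoninv {Y : Type*} (X : Finset Y) (f : Y → Y) : ℚ :=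
  (∑ x ∈ X, (#(X.filter fun y => f y = x) : ℚ) ^ 2) / (#X : ℚ)

section prelim

variable {P : Type*} [PartialOrder P]

/-- polynomial inequality -/
def FF (W U : ℚ) : ℚ := (W + U) * (W ^ 2 + U ^ 2 - 2)

theorem posetSum (s : Finset P) :
    ∑ x ∈ s, FF ((#(s.filter (fun y => ¬ y ≤ x)) : ℚ) + 1) ((#(s.filter (fun y => x < y)) : ℚ) + 1)
      ≤ ((#s : ℚ) - 1) * #s * (#s + 1) * (#s + 2) := by
  induction hn : #s using Nat.strong_induction_on generalizing s with
  | _ n ih =>
    rcases s.eq_empty_or_nonempty with rfl | hne
    · simp at hn
      subst hn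
      simp
    obtain ⟨z, hz, hmax⟩ := s.exists_max_image (fun x => #(s.filter (fun y => x < y))) hne
    have hzmin : ∀ y ∈ s, ¬ y < z := by
      intro y hy hlt
      have := hmax y hy
      have h2 : s.filter (fun w => z < w) ⊂ s.filter (fun w => y < w) := by
        refine Finset.ssubset_iff_subset_ne.2 ⟨fun w hw => ?_, fun he => ?_⟩
        · simp only [mem_filter] at hw ⊢
          exact ⟨hw.1, hlt.trans hw.2⟩
        · have : z ∈ s.filter (fun w => y < w) := by simp [hz, hlt]
          rw [← he] at this
          simp at this
      have := Finset.card_lt_card h2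
      omega
    have hnpos : 0 < n := by rw [← hn]; exact Finset.card_pos.2 hne
    -- the erased set
    have hcard : #(s.erase z) = n - 1 := by rw [Finset.card_erase_of_mem hz, hn]
    have hIH := ih (n - 1) (by omega) (s.erase z) hcard
    -- values at z
    have hwz : #(s.filter (fun y => ¬ y ≤ z)) = n - 1 := by
      rw [← hcard]
      congr 1
      ext y
      simp only [mem_filter, mem_erase]
      constructor
      · rintro ⟨h1, h2⟩
        exact ⟨fun h => h2 (h ▸ le_rfl), h1⟩
      · rintro ⟨h1, h2⟩
        exact ⟨h2, fun h => hzmin y h2 (lt_of_le_of_ne h h1)⟩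
    set uz := #(s.filter (fun y => z < y)) with huz
    have huzlt : uz + 1 ≤ n := by
      have : s.filter (fun y => z < y) ⊆ s.erase z := by
        intro y hy
        simp only [mem_filter, mem_erase] at hy ⊢
        exact ⟨hy.2.ne', hy.1⟩
      have := Finset.card_le_card this
      omega
    have hu : ∀ x ∈ s.erase z, #((s.erase z).filter (fun y => x < y)) = #(s.filter (fun y => x < y)) := by
      intro x hx
      congr 1
      ext y
      simp only [mem_filter, mem_erase]
      constructor
      · rintro ⟨⟨_, h⟩, h2⟩; exact ⟨h, h2⟩
      · rintro ⟨h, h2⟩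
        refine ⟨⟨?_, h⟩, h2⟩
        rintro rfl
        exact hzmin x (mem_of_mem_erase hx) h2
    have hw : ∀ x ∈ s.erase z, (#(s.filter (fun y => ¬ y ≤ x)) : ℚ) =
        #((s.erase z).filter (fun y => ¬ y ≤ x)) + (if z ≤ x then 0 else 1) := by
      intro x hx
      by_cases hzx : z ≤ x
      · rw [if_pos hzx, add_zero]
        congr 2
        ext y
        simp only [mem_filter, mem_erase]
        constructor
        · rintro ⟨h, h2⟩
          exact ⟨⟨fun h3 => h2 (h3 ▸ hzx), h⟩, h2⟩
        · rintro ⟨⟨_, h⟩, h2⟩; exact ⟨h, h2⟩
      · rw [if_neg hzx]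
        have : s.filter (fun y => ¬ y ≤ x) = insert z ((s.erase z).filter (fun y => ¬ y ≤ x)) := by
          ext y
          simp only [mem_filter, mem_erase, mem_insert]
          constructor
          · rintro ⟨h, h2⟩
            by_cases h3 : y = z
            · exact Or.inl h3
            · exact Or.inr ⟨⟨h3, h⟩, h2⟩
          · rintro (rfl | ⟨⟨_, h⟩, h2⟩)
            · exact ⟨hz, hzx⟩
            · exact ⟨h, h2⟩
        rw [this, Finset.card_insert_of_notMem (by simp)]
        push_cast
        ring
    rw [← Finset.add_sum_erase _ _ hz, hwz]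
    -- bound each term
    have hterm : ∀ x ∈ s.erase z,
        FF ((#(s.filter (fun y => ¬ y ≤ x)) : ℚ) + 1) ((#(s.filter (fun y => x < y)) : ℚ) + 1) ≤
        FF ((#((s.erase z).filter (fun y => ¬ y ≤ x)) : ℚ) + 1)
          ((#((s.erase z).filter (fun y => x < y)) : ℚ) + 1)
        + (if z ≤ x then 0 else (3 * (n:ℚ) ^ 2 - 3 * n - 1 + ((uz:ℚ) + 1) ^ 2 + 2 * n * (uz + 1) - (uz + 1))) := by
      intro x hx
      rw [hu x hx]
      have hxs := mem_of_mem_erase hx
      by_cases hzx : z ≤ x
      · rw [hw x hx, if_pos hzx, if_pos hzx]
        simp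
      · have h1 := hw x hx
        rw [if_neg hzx] at h1
        rw [if_neg hzx]
        set W' : ℚ := (#((s.erase z).filter (fun y => ¬ y ≤ x)) : ℚ) with hW'
        have hW'0 : 0 ≤ W' := by positivity
        have hWle : W' + 2 ≤ n := by
          have : #(s.filter (fun y => ¬ y ≤ x)) + 1 ≤ n := by
            have : s.filter (fun y => ¬ y ≤ x) ⊆ s.erase x := by
              intro y hy
              simp only [mem_filter, mem_erase] at hy ⊢
              exact ⟨fun h => hy.2 (h ▸ le_rfl), hy.1⟩
            have := Finset.card_le_card this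
            rw [Finset.card_erase_of_mem hxs] at this
            omega
          have h3 : (#(s.filter (fun y => ¬ y ≤ x)) : ℚ) + 1 ≤ n := by exact_mod_cast this
          rw [h1] at h3
          linarith
        have hU : (#(s.filter (fun y => x < y)) : ℚ) ≤ uz := by
          exact_mod_cast hmax x hxs
        set U : ℚ := (#(s.filter (fun y => x < y)) : ℚ) with hUdef
        have hU0 : 0 ≤ U := by positivity
        rw [h1]
        unfold FF
        have hn0 : (0:ℚ) ≤ n := by positivity
        nlinarith [mul_nonneg hU0 hW'0, mul_nonneg (sub_nonneg.2 hU) (sub_nonneg.2 hWle),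
          mul_nonneg (sub_nonneg.2 hU) hW'0, mul_nonneg (sub_nonneg.2 hU) hU0,
          mul_nonneg (sub_nonneg.2 hWle) hW'0, mul_nonneg (sub_nonneg.2 hWle) hU0,
          mul_nonneg (sub_nonneg.2 hU) hn0, mul_nonneg (sub_nonneg.2 hWle) hn0]
    have hsum := Finset.sum_le_sum hterm
    rw [Finset.sum_add_distrib] at hsum
    have hcount : ∑ x ∈ s.erase z, (if z ≤ x then (0:ℚ) else (3 * (n:ℚ) ^ 2 - 3 * n - 1 + ((uz:ℚ) + 1) ^ 2 + 2 * n * (uz + 1) - (uz + 1)))
        = ((n:ℚ) - 1 - uz) * (3 * (n:ℚ) ^ 2 - 3 * n - 1 + ((uz:ℚ) + 1) ^ 2 + 2 * n * (uz + 1) - (uz + 1)) := by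
      rw [Finset.sum_ite, Finset.sum_const_zero, zero_add, Finset.sum_const, nsmul_eq_mul]
      congr 1
      have h1 : (s.erase z).filter (fun x => ¬ z ≤ x) = (s.erase z) \ (s.filter (fun y => z < y)) := by
        ext y
        simp only [mem_filter, mem_erase, mem_sdiff, not_and]
        constructor
        · rintro ⟨⟨h1, h2⟩, h3⟩
          exact ⟨⟨h1, h2⟩, fun _ h4 => h3 h4.le⟩
        · rintro ⟨⟨h1, h2⟩, h3⟩
          exact ⟨⟨h1, h2⟩, fun h4 => h3 h2 (lt_of_le_of_ne h4 (Ne.symm h1))⟩
      rw [h1, Finset.card_sdiff_of_subset, hcard, ← huz]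
      · rw [Nat.cast_sub (by omega), Nat.cast_sub (by omega)]
        push_cast
        ring
      · intro y hy
        simp only [mem_filter, mem_erase] at hy ⊢
        exact ⟨hy.2.ne', hy.1⟩
    rw [hcount] at hsum
    have hn1 : ((n - 1 : ℕ) : ℚ) = (n:ℚ) - 1 := by
      rw [Nat.cast_sub (by omega)]; simp
    rw [hn1] at hIH ⊢
    have huq : (uz : ℚ) + 1 ≤ n := by exact_mod_cast huzlt
    have hu0 : (0:ℚ) ≤ uz := by positivity
    have hnq : (1:ℚ) ≤ n := by exact_mod_cast hnpos
    refine (add_le_add_right hsum _).trans ?_
    refine (add_le_add_right (add_le_add_left hIH _) _).trans ?_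
    unfold FF
    nlinarith [mul_nonneg (sub_nonneg.2 huq) hu0, mul_nonneg (sub_nonneg.2 huq) (sub_nonneg.2 hnq)]


/-- average over the words of length `k` without repetition, letters in `s` (used with `#s = k`) -/
noncomputable def EE : ℕ → Finset P → (List P → ℚ) → ℚ
  | 0, _, f => f []
  | k + 1, s, f => (∑ x ∈ s, EE k (s.erase x) (fun l => f (x :: l))) / ((k : ℚ) + 1)

theorem EE_mono (k : ℕ) (s : Finset P) (f g : List P → ℚ) (h : ∀ l, f l ≤ g l) :
    EE k s f ≤ EE k s g := by
  induction k generalizing s f g with
  | zero => exact h []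
  | succ k ih =>
    unfold EE
    apply div_le_div_of_nonneg_right _ (by positivity)
    exact Finset.sum_le_sum fun x _ => ih _ _ _ fun l => h _

theorem EE_add (k : ℕ) (s : Finset P) (f g : List P → ℚ) :
    EE k s (fun l => f l + g l) = EE k s f + EE k s g := by
  induction k generalizing s f g with
  | zero => rfl
  | succ k ih =>
    unfold EE
    rw [← add_div, ← Finset.sum_add_distrib]
    congr 1
    exact Finset.sum_congr rfl fun x _ => ih _ _ _

theorem EE_smul (k : ℕ) (s : Finset P) (c : ℚ) (f : List P → ℚ) :
    EE k s (fun l => c * f l) = c * EE k s f := by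
  induction k generalizing s f with
  | zero => rfl
  | succ k ih =>
    unfold EE
    rw [mul_div_assoc', Finset.mul_sum]
    congr 1
    exact Finset.sum_congr rfl fun x _ => ih _ _

theorem EE_nonneg (k : ℕ) (s : Finset P) (f : List P → ℚ) (h : ∀ l, 0 ≤ f l) : 0 ≤ EE k s f := by
  induction k generalizing s f with
  | zero => exact h []
  | succ k ih =>
    unfold EE
    exact div_nonneg (Finset.sum_nonneg fun x _ => ih _ _ fun l => h _) (by positivity)

theorem EE_filter (p : P → Prop) [DecidablePred p] (k : ℕ) (s : Finset P) (hs : #s = k) (f : List P → ℚ) :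
    EE k s (fun l => f (l.filter p)) = EE (#(s.filter p)) (s.filter p) f := by
  induction k generalizing s f with
  | zero =>
    have : s = ∅ := Finset.card_eq_zero.1 hs
    subst this
    simp [EE]
  | succ k ih =>
    have hx : ∀ x ∈ s, EE k (s.erase x) (fun l => f ((x :: l).filter p)) =
        if p x then EE (#(s.filter p) - 1) ((s.filter p).erase x) (fun l => f (x :: l))
        else EE (#(s.filter p)) (s.filter p) f := by
      intro x hx
      have hc : #(s.erase x) = k := by rw [Finset.card_erase_of_mem hx, hs]; rfl
      by_cases hp : p x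
      · rw [if_pos hp]
        have h1 : (fun l : List P => f ((x :: l).filter p)) =
            fun l => (fun l' => f (x :: l')) (l.filter p) := by
          funext l
          simp [List.filter_cons, hp]
        rw [h1]
        refine (ih (s.erase x) hc (fun l' => f (x :: l'))).trans ?_
        have h2 : (s.erase x).filter p = (s.filter p).erase x := by
          ext y; simp only [mem_filter, mem_erase]; tauto
        rw [h2, Finset.card_erase_of_mem (by simp [hx, hp])]
      · rw [if_neg hp]
        have h1 : (fun l : List P => f ((x :: l).filter p)) =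
            fun l => f (l.filter p) := by
          funext l
          simp [List.filter_cons, hp]
        rw [h1, ih (s.erase x) hc]
        have h2 : (s.erase x).filter p = s.filter p := by
          ext y; simp only [mem_filter, mem_erase]
          constructor
          · rintro ⟨⟨_, h⟩, h'⟩; exact ⟨h, h'⟩
          · rintro ⟨h, h'⟩; exact ⟨⟨fun he => hp (he ▸ h'), h⟩, h'⟩
        rw [h2]
    rw [EE, Finset.sum_congr rfl hx, Finset.sum_ite, Finset.sum_const, nsmul_eq_mul]
    have hcompl : (#(s.filter (fun x => ¬ p x)) : ℚ) = (k + 1) - #(s.filter p) := by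
      have := Finset.card_filter_add_card_filter_not (s := s) p
      rw [hs] at this
      have h : ((#(s.filter p) + #(s.filter (fun x => ¬ p x)) : ℕ) : ℚ) = ((k + 1 : ℕ) : ℚ) := by
        rw [this]
      push_cast at h
      linarith
    rw [hcompl]
    rcases hm : #(s.filter p) with _ | m
    · have : s.filter p = ∅ := Finset.card_eq_zero.1 hm
      rw [this]
      simp
      field_simp
    · have h3 : ∑ x ∈ s.filter p, EE (m + 1 - 1) ((s.filter p).erase x) (fun l => f (x :: l))
          = ((m : ℚ) + 1) * EE (m + 1) (s.filter p) f := by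
        rw [EE]
        field_simp
        rfl
      rw [h3]
      push_cast
      field_simp
      ring

/-- number of chains, in recursive form -/
noncomputable def XX (v : P) : List P → ℚ
  | [] => 1
  | x :: l => XX v (l.filter (fun y => ¬ y ≤ x)) +
      (if x < v then XX v (l.filter (fun y => x < y)) else 0)
termination_by l => l.length
decreasing_by
  all_goals simp only [List.length_cons]
  all_goals refine Nat.lt_succ_of_le ?_
  all_goals rw [List.length_unattach]
  all_goals exact (List.length_filter_le _ _).trans (by simp)

theorem XX_nonneg (v : P) : ∀ (n : ℕ) (l : List P), l.length = n → 0 ≤ XX v l := by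
  intro n
  induction n using Nat.strong_induction_on with
  | _ n ih =>
    intro l hl
    cases l with
    | nil => rw [XX]; norm_num
    | cons x l =>
      rw [XX]
      have h1 := ih _ (by rw [← hl]; simp only [List.length_cons]; exact Nat.lt_succ_of_le (List.length_filter_le (fun y => decide (¬ y ≤ x)) l)) _ rfl
      have h2 := ih _ (by rw [← hl]; simp only [List.length_cons]; exact Nat.lt_succ_of_le (List.length_filter_le (fun y => decide (x < y)) l)) _ rfl
      split_ifs <;> linarith

noncomputable def maxs (s : Finset P) : Finset P := s.filter (fun v => ∀ y ∈ s, ¬ v < y)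

noncomputable def GG (s : Finset P) : ℚ :=
  ∑ v ∈ maxs s, EE (#s - 1) (s.erase v) (fun l => (XX v l) ^ 2)

theorem GG_nonneg (s : Finset P) : 0 ≤ GG s :=
  Finset.sum_nonneg fun v _ => EE_nonneg _ _ _ fun l => sq_nonneg _

noncomputable def gg (m : ℚ) : ℚ := m * (m + 1) * (m + 2) / 6

theorem GG_le (n : ℕ) : ∀ s : Finset P, #s = n → GG s ≤ gg n := by
  induction n using Nat.strong_induction_on with
  | _ n ih =>
    intro s hs
    rcases n with _ | _ | k
    · have : s = ∅ := Finset.card_eq_zero.1 hs
      subst this
      simp [GG, maxs, gg]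
    · obtain ⟨a, rfl⟩ := Finset.card_eq_one.1 hs
      have : maxs ({a} : Finset P) = {a} := by
        ext y
        simp only [maxs, mem_filter, mem_singleton]
        constructor
        · exact fun h => h.1
        · rintro rfl
          exact ⟨rfl, fun z hz h => by rw [hz] at h; exact lt_irrefl _ h⟩
      simp [GG, this, EE, XX, gg]
      norm_num
    · -- main step
      have hkey : ((k:ℚ) + 1) * GG s ≤ ∑ x ∈ s,
          FF ((#(s.filter (fun y => ¬ y ≤ x)) : ℚ) + 1) ((#(s.filter (fun y => x < y)) : ℚ) + 1) / 6 := by
        have h1 : ∀ v ∈ maxs s, ((k:ℚ) + 1) * EE (#s - 1) (s.erase v) (fun l => (XX v l) ^ 2) =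
            ∑ x ∈ s.erase v, EE k ((s.erase v).erase x) (fun l => (XX v (x :: l)) ^ 2) := by
          intro v hv
          rw [hs]
          show ((k:ℚ) + 1) * EE (k + 1) _ _ = _
          rw [EE]
          field_simp
        rw [GG, Finset.mul_sum, Finset.sum_congr rfl h1]
        have h2 : ∑ v ∈ maxs s, ∑ x ∈ s.erase v, EE k ((s.erase v).erase x) (fun l => (XX v (x :: l)) ^ 2)
            = ∑ x ∈ s, ∑ v ∈ (maxs s).erase x, EE k ((s.erase v).erase x) (fun l => (XX v (x :: l)) ^ 2) := by
          rw [Finset.sum_comm']
          intro v x
          simp only [mem_erase]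
          constructor
          · rintro ⟨h1, h2, h3⟩; exact ⟨⟨Ne.symm h2, h1⟩, h3⟩
          · rintro ⟨⟨h1, h2⟩, h3⟩; exact ⟨h2, Ne.symm h1, h3⟩
        rw [h2]
        apply Finset.sum_le_sum
        intro x hx
        set Ux := s.filter (fun y => ¬ y ≤ x) with hUx
        set Vx := s.filter (fun y => x < y) with hVx
        have hVU : Vx ⊆ Ux := by
          intro y hy
          simp only [hUx, hVx, mem_filter] at hy ⊢
          exact ⟨hy.1, not_le_of_gt hy.2⟩
        have hUlt : #Ux < k + 2 := by
          have h3 : Ux ⊆ s.erase x := by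
            intro y hy
            simp only [hUx, mem_filter, mem_erase] at hy ⊢
            exact ⟨fun h => hy.2 (h ▸ le_rfl), hy.1⟩
          have := Finset.card_le_card h3
          rw [Finset.card_erase_of_mem hx, hs] at this
          omega
        have hVlt : #Vx < k + 2 := lt_of_le_of_lt (Finset.card_le_card hVU) hUlt
        have hGU := ih _ hUlt Ux rfl
        have hGV := ih _ hVlt Vx rfl
        -- the maximal elements
        have hmU : maxs Ux = (maxs s).erase x := by
          ext v
          simp only [maxs, mem_filter, mem_erase, hUx]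
          constructor
          · rintro ⟨⟨h1, h2⟩, h3⟩
            refine ⟨fun h => h2 (h ▸ le_rfl), h1, fun y hy hvy => h3 y ⟨hy, fun h => h2 (hvy.le.trans h)⟩ hvy⟩
          · rintro ⟨h1, h2, h3⟩
            refine ⟨⟨h2, fun h => h3 x hx (lt_of_le_of_ne h h1)⟩, fun y hy => h3 y hy.1⟩
        have hmV : maxs Vx = ((maxs s).erase x).filter (fun v => x < v) := by
          ext v
          simp only [maxs, mem_filter, mem_erase, hVx]
          constructor
          · rintro ⟨⟨h1, h2⟩, h3⟩
            exact ⟨⟨h2.ne', h1, fun y hy hvy => h3 y ⟨hy, h2.trans hvy⟩ hvy⟩, h2⟩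
          · rintro ⟨⟨h1, h2, h3⟩, h4⟩
            exact ⟨⟨h2, h4⟩, fun y hy => h3 y hy.1⟩
        -- pointwise bound with weight t
        have hpt : ∀ t : ℚ, 0 < t → ∑ v ∈ (maxs s).erase x,
            EE k ((s.erase v).erase x) (fun l => (XX v (x :: l)) ^ 2) ≤
              (1 + t) * GG Ux + (1 + 1 / t) * GG Vx := by
          intro t ht
          have hv : ∀ v ∈ (maxs s).erase x, EE k ((s.erase v).erase x) (fun l => (XX v (x :: l)) ^ 2) ≤
              (1 + t) * EE (#Ux - 1) (Ux.erase v) (fun l => (XX v l) ^ 2) +
              (if x < v then (1 + 1 / t) * EE (#Vx - 1) (Vx.erase v) (fun l => (XX v l) ^ 2) else 0) := by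
            intro v hv
            have hvx : v ≠ x := (mem_erase.1 hv).1
            have hvs : v ∈ s := (mem_filter.1 (mem_erase.1 hv).2).1
            have hvmax : ∀ y ∈ s, ¬ v < y := (mem_filter.1 (mem_erase.1 hv).2).2
            have hcard : #((s.erase v).erase x) = k := by
              rw [Finset.card_erase_of_mem (mem_erase.2 ⟨Ne.symm hvx, hx⟩), Finset.card_erase_of_mem hvs, hs]
              rfl
            have hvU : v ∈ Ux := by
              simp only [hUx, mem_filter]
              exact ⟨hvs, fun h => hvmax x hx (lt_of_le_of_ne h hvx)⟩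
            have hA : EE k ((s.erase v).erase x) (fun l => (XX v (l.filter (fun y => ¬ y ≤ x))) ^ 2) =
                EE (#Ux - 1) (Ux.erase v) (fun l => (XX v l) ^ 2) := by
              have h5 := EE_filter (fun y => ¬ y ≤ x) k ((s.erase v).erase x) hcard (fun l => (XX v l) ^ 2)
              have h6 : ((s.erase v).erase x).filter (fun y => ¬ y ≤ x) = Ux.erase v := by
                ext y
                simp only [hUx, mem_filter, mem_erase]
                constructor
                · rintro ⟨⟨_, h2, h3⟩, h4⟩; exact ⟨h2, h3, h4⟩
                · rintro ⟨h2, h3, h4⟩; exact ⟨⟨fun h => h4 (h ▸ le_rfl), h2, h3⟩, h4⟩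
              rw [h6, Finset.card_erase_of_mem hvU] at h5
              convert h5 using 4
            by_cases hxv : x < v
            · rw [if_pos hxv]
              have hvV : v ∈ Vx := by
                simp only [hVx, mem_filter]
                exact ⟨hvs, hxv⟩
              have hB : EE k ((s.erase v).erase x) (fun l => (XX v (l.filter (fun y => x < y))) ^ 2) =
                  EE (#Vx - 1) (Vx.erase v) (fun l => (XX v l) ^ 2) := by
                have h5 := EE_filter (fun y => x < y) k ((s.erase v).erase x) hcard (fun l => (XX v l) ^ 2)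
                have h6 : ((s.erase v).erase x).filter (fun y => x < y) = Vx.erase v := by
                  ext y
                  simp only [hVx, mem_filter, mem_erase]
                  constructor
                  · rintro ⟨⟨_, h2, h3⟩, h4⟩; exact ⟨h2, h3, h4⟩
                  · rintro ⟨h2, h3, h4⟩; exact ⟨⟨h4.ne', h2, h3⟩, h4⟩
                rw [h6, Finset.card_erase_of_mem hvV] at h5
                convert h5 using 4
              rw [← hA, ← hB, ← EE_smul, ← EE_smul, ← EE_add]
              apply EE_mono
              intro l
              rw [XX, if_pos hxv]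
              set A := XX v (l.filter (fun y => ¬ y ≤ x))
              set B := XX v (l.filter (fun y => x < y))
              have : (1 + t) * A ^ 2 + (1 + 1 / t) * B ^ 2 - (A + B) ^ 2 = (t * A - B) ^ 2 / t := by
                field_simp
                ring
              have h7 : 0 ≤ (t * A - B) ^ 2 / t := div_nonneg (sq_nonneg _) ht.le
              linarith
            · rw [if_neg hxv, add_zero, ← hA, ← EE_smul]
              apply EE_mono
              intro l
              rw [XX, if_neg hxv, add_zero]
              nlinarith [sq_nonneg (XX v (l.filter (fun y => ¬ y ≤ x)))]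
          refine (Finset.sum_le_sum hv).trans ?_
          rw [Finset.sum_add_distrib, ← Finset.mul_sum, ← Finset.sum_filter, ← Finset.mul_sum]
          rw [GG, GG, hmU, hmV]
        have hu0 : (0:ℚ) ≤ (#Vx : ℚ) := by positivity
        have huw : (#Vx : ℚ) ≤ (#Ux : ℚ) := by exact_mod_cast Finset.card_le_card hVU
        rcases Nat.eq_zero_or_pos (#Ux) with hw0 | hwpos
        · have hV0 : #Vx = 0 := Nat.le_zero.1 (hw0 ▸ Finset.card_le_card hVU)
          have := hpt 1 one_pos
          have hgU : gg ((#Ux : ℕ) : ℚ) = 0 := by rw [hw0]; simp [gg]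
          have hgV : gg ((#Vx : ℕ) : ℚ) = 0 := by rw [hV0]; simp [gg]
          rw [hw0, hV0]
          simp only [FF]
          rw [hgU] at hGU
          rw [hgV] at hGV
          norm_num
          norm_num at this
          linarith
        · have hw1 : (1:ℚ) ≤ (#Ux : ℚ) := by exact_mod_cast hwpos
          set w : ℚ := (#Ux : ℚ) with hw
          set u : ℚ := (#Vx : ℚ) with hu
          have hg : 0 < gg w := by unfold gg; positivity
          set h : ℚ := (w * u + w + u) * (w + u + 2) / 12 with hh
          have hhpos : 0 < h := by positivity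
          have hle := hpt (h / gg w) (div_pos hhpos hg)
          have hgu : 0 ≤ gg u := by unfold gg; positivity
          have hprod : gg w * gg u ≤ h ^ 2 := by
            have h8 : (w * (w + 2)) * (u * (u + 2)) ≤ (w * u + w + u) ^ 2 := by nlinarith [sq_nonneg (w - u)]
            have h9 : (w + 1) * (u + 1) ≤ ((w + u + 2) / 2) ^ 2 := by nlinarith [sq_nonneg (w - u)]
            have h10 := mul_le_mul h8 h9 (by positivity) (by positivity)
            have : gg w * gg u = (w * (w + 2)) * (u * (u + 2)) * ((w + 1) * (u + 1)) / 36 := by
              unfold gg; ring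
            rw [this, hh]
            nlinarith
          have h11 : (1 + h / gg w) * GG Ux ≤ gg w + h := by
            calc (1 + h / gg w) * GG Ux ≤ (1 + h / gg w) * gg w :=
                  mul_le_mul_of_nonneg_left hGU (by positivity)
              _ = gg w + h := by field_simp
          have h12 : (1 + 1 / (h / gg w)) * GG Vx ≤ gg u + h := by
            calc (1 + 1 / (h / gg w)) * GG Vx ≤ (1 + 1 / (h / gg w)) * gg u :=
                  mul_le_mul_of_nonneg_left hGV (by positivity)
              _ = gg u + (gg w * gg u) / h := by field_simp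
              _ ≤ gg u + h := by
                  have : (gg w * gg u) / h ≤ h := by
                    rw [div_le_iff₀ hhpos]
                    nlinarith
                  linarith
          refine hle.trans ((add_le_add h11 h12).trans (le_of_eq ?_))
          rw [hh]
          unfold gg FF
          ring
      have hps := posetSum s
      rw [hs] at hps
      rw [← Finset.sum_div] at hkey
      have hk0 : (0:ℚ) < (k:ℚ) + 1 := by positivity
      have : ((k:ℚ) + 1) * GG s ≤ ((k:ℚ) + 1) * gg ((k + 1 + 1 : ℕ) : ℚ) := by
        refine hkey.trans ?_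
        unfold gg
        push_cast at hps ⊢
        linarith
      exact le_of_mul_le_mul_left this hk0


end prelim

variable {P : Type*} [PartialOrder P]

variable [Fintype P]

omit [PartialOrder P] in
theorem mem_labelings {L : P → ℕ} : L ∈ labelings P ↔
    (∀ x, 1 ≤ L x ∧ L x ≤ Fintype.card P) ∧ Function.Injective L := by
  simp [labelings, Fintype.mem_piFinset]

/-- existence of successor -/
theorem exists_succ (L : P → ℕ) (x : P) (hx : ¬ IsMax x) : ∃ y, IsSuccessor L x y := by
  have h : (Finset.univ.filter (fun y => x < y)).Nonempty := by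
    rw [not_isMax_iff] at hx
    obtain ⟨y, hy⟩ := hx
    exact ⟨y, by simp [hy]⟩
  obtain ⟨y, hy, hmin⟩ := Finset.exists_min_image _ L h
  refine ⟨y, (mem_filter.1 hy).2, fun z hz => hmin z (by simp [hz])⟩

theorem succ_sInf (L : P → ℕ) (x y : P) (h : IsSuccessor L x y) : sInf (L '' Set.Ioi x) = L y := by
  apply le_antisymm
  · exact Nat.sInf_le ⟨y, h.1, rfl⟩
  · apply le_csInf (⟨L y, y, h.1, rfl⟩ : (L '' Set.Ioi x).Nonempty)
    rintro _ ⟨z, hz, rfl⟩
    exact h.2 z hz

section one
variable {L : P → ℕ} (hL : L ∈ labelings P)
include hL

theorem succ_unique {x y z : P} (hy : IsSuccessor L x y) (hz : IsSuccessor L x z) : y = z :=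
  (mem_labelings.1 hL).2 (le_antisymm (hy.2 z hz.1) (hz.2 y hy.1))

/-- labels increase along the chain -/
theorem lab_lt {x y : P} (hx : InPromotionChain L x) (hy : IsSuccessor L x y) : L x < L y := by
  have hinj := (mem_labelings.1 hL).2
  have h1 := (mem_labelings.1 hL).1
  rcases hx with ⟨_, h⟩ | ⟨x', _, hx', hs⟩
  · rw [h]
    have := (h1 y).1
    rcases Nat.lt_or_ge 1 (L y) with h2 | h2
    · exact h2
    · have : L y = L x := by omega
      exact absurd (hinj this) hy.1.ne'
  · have h3 : L x ≤ L y := hs.2 y (hs.1.trans hy.1)
    exact lt_of_le_of_ne h3 fun h => hy.1.ne (hinj h)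

theorem chain_lt_aux (N : ℕ) : ∀ x y : P, InPromotionChain L x → InPromotionChain L y →
    L x < L y → L y ≤ N → x < y := by
  induction N with
  | zero =>
    intro x y _ _ h h2
    omega
  | succ N ih =>
    intro x y hx hy h h2
    have hinj := (mem_labelings.1 hL).2
    rcases hy with ⟨_, h3⟩ | ⟨y', _, hy', hs⟩
    · have := ((mem_labelings.1 hL).1 x).1
      omega
    · have h4 := lab_lt hL hy' hs
      rcases lt_trichotomy (L x) (L y') with h5 | h5 | h5
      · exact (ih x y' hx hy' h5 (by omega)).trans hs.1
      · rw [hinj h5]; exact hs.1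
      · have h6 := ih y' x hy' hx h5 (by omega)
        have := hs.2 x h6
        omega

theorem chain_lt {x y : P} (hx : InPromotionChain L x) (hy : InPromotionChain L y)
    (h : L x < L y) : x < y := chain_lt_aux hL (L y) x y hx hy h le_rfl

theorem chain_lt_iff {x y : P} (hx : InPromotionChain L x) (hy : InPromotionChain L y) :
    L x < L y ↔ x < y := by
  constructor
  · exact chain_lt hL hx hy
  · intro h
    rcases lt_trichotomy (L x) (L y) with h5 | h5 | h5
    · exact h5
    · exact absurd ((mem_labelings.1 hL).2 h5) h.ne
    · exact absurd (chain_lt hL hy hx h5) h.asymm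

theorem image_labeling : Finset.univ.image L = Finset.Icc 1 (Fintype.card P) := by
  have h := mem_labelings.1 hL
  apply Finset.eq_of_subset_of_card_le
  · intro k hk
    obtain ⟨x, _, rfl⟩ := Finset.mem_image.1 hk
    exact Finset.mem_Icc.2 (h.1 x)
  · rw [Finset.card_image_of_injective _ h.2]
    simp

theorem exists_label (k : ℕ) (h1 : 1 ≤ k) (h2 : k ≤ Fintype.card P) : ∃ x, L x = k := by
  have : k ∈ Finset.univ.image L := by
    rw [image_labeling hL]; exact Finset.mem_Icc.2 ⟨h1, h2⟩
  obtain ⟨x, _, h⟩ := Finset.mem_image.1 this
  exact ⟨x, h⟩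

theorem exists_top [Nonempty P] : ∃ w, InPromotionChain L w ∧ IsMax w := by
  obtain ⟨x, hx⟩ := exists_label hL 1 le_rfl Fintype.card_pos
  have h : (Finset.univ.filter (fun y => InPromotionChain L y)).Nonempty :=
    ⟨x, by simpa using InPromotionChain.start x hx⟩
  obtain ⟨w, hw, hmax⟩ := Finset.exists_max_image _ L h
  have hw' := (mem_filter.1 hw).2
  refine ⟨w, hw', ?_⟩
  by_contra hm
  obtain ⟨y, hy⟩ := exists_succ L w hm
  have := hmax y (by simpa using InPromotionChain.next w y hw' hy)
  have := lab_lt hL hw' hy
  omega

theorem promotion_not {x : P} (hx : ¬ InPromotionChain L x) : promotion L x = L x - 1 := by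
  simp [promotion, hx]

theorem promotion_max {x : P} (hx : InPromotionChain L x) (hm : IsMax x) :
    promotion L x = Fintype.card P := by
  simp [promotion, hx, hm]

theorem promotion_succ {x y : P} (hx : InPromotionChain L x) (hy : IsSuccessor L x y) :
    promotion L x = L y - 1 := by
  have hm : ¬ IsMax x := fun h => (h.not_lt hy.1)
  simp only [promotion, hx, hm, if_true, if_false]
  rw [succ_sInf L x y hy]

theorem not_chain_ge {x : P} (hx : ¬ InPromotionChain L x) : 2 ≤ L x := by
  have := ((mem_labelings.1 hL).1 x).1
  rcases Nat.lt_or_ge 1 (L x) with h | h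
  · exact h
  · exact absurd (InPromotionChain.start x (by omega)) hx

theorem chain_comparable {x y : P} (hx : InPromotionChain L x) (hy : InPromotionChain L y) :
    x < y ∨ x = y ∨ y < x := by
  rcases lt_trichotomy (L x) (L y) with h5 | h5 | h5
  · exact Or.inl (chain_lt hL hx hy h5)
  · exact Or.inr (Or.inl ((mem_labelings.1 hL).2 h5))
  · exact Or.inr (Or.inr (chain_lt hL hy hx h5))

/-- no chain element strictly between `x` and its successor -/
theorem no_between {x y z : P} (hx : InPromotionChain L x) (hy : IsSuccessor L x y)
    (hz : InPromotionChain L z) (h : z < y) : z ≤ x := by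
  have hy' := InPromotionChain.next x y hx hy
  rcases chain_comparable hL hz hx with h1 | h1 | h1
  · exact h1.le
  · exact h1.le
  · have h2 := hy.2 z h1
    have h3 := (chain_lt_iff hL hz hy').2 h
    omega

theorem promotion_mem [Nonempty P] : promotion L ∈ labelings P := by
  have h := mem_labelings.1 hL
  have hval : ∀ x, 1 ≤ promotion L x ∧ promotion L x ≤ Fintype.card P := by
    intro x
    by_cases hx : InPromotionChain L x
    · by_cases hm : IsMax x
      · rw [promotion_max hL hx hm]
        exact ⟨Fintype.card_pos, le_rfl⟩
      · obtain ⟨y, hy⟩ := exists_succ L x hm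
        rw [promotion_succ hL hx hy]
        have := lab_lt hL hx hy
        have h1 := h.1 x
        have h2 := h.1 y
        omega
    · rw [promotion_not hL hx]
      have := not_chain_ge hL hx
      have h2 := h.1 x
      omega
  rw [mem_labelings]
  refine ⟨hval, ?_⟩
  -- injectivity
  have key : ∀ x y : P, InPromotionChain L x → promotion L x = promotion L y → x = y := by
    intro x y hx hxy
    have h1x := h.1 x
    have h1y := h.1 y
    by_cases hmx : IsMax x
    · rw [promotion_max hL hx hmx] at hxy
      by_cases hy : InPromotionChain L y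
      · by_cases hmy : IsMax y
        · rcases chain_comparable hL hx hy with h1 | h1 | h1
          · exact absurd h1 hmx.not_lt
          · exact h1
          · exact absurd h1 hmy.not_lt
        · obtain ⟨z, hz⟩ := exists_succ L y hmy
          rw [promotion_succ hL hy hz] at hxy
          have := h.1 z
          omega
      · rw [promotion_not hL hy] at hxy
        omega
    · obtain ⟨z, hz⟩ := exists_succ L x hmx
      rw [promotion_succ hL hx hz] at hxy
      have h1z := h.1 z
      have hzc := InPromotionChain.next x z hx hz
      by_cases hy : InPromotionChain L y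
      · by_cases hmy : IsMax y
        · rw [promotion_max hL hy hmy] at hxy
          omega
        · obtain ⟨w, hw⟩ := exists_succ L y hmy
          rw [promotion_succ hL hy hw] at hxy
          have h1w := h.1 w
          have hzw : z = w := h.2 (by omega)
          subst hzw
          have a1 := no_between hL hx hz hy hw.1
          have a2 := no_between hL hy hw hx hz.1
          exact le_antisymm a2 a1
      · rw [promotion_not hL hy] at hxy
        have := not_chain_ge hL hy
        have hzy : z = y := h.2 (by omega)
        exact absurd (hzy ▸ hzc) hy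
  intro x y hxy
  by_cases hx : InPromotionChain L x
  · exact key x y hx hxy
  · by_cases hy : InPromotionChain L y
    · exact (key y x hy hxy.symm).symm
    · rw [promotion_not hL hx, promotion_not hL hy] at hxy
      have a := not_chain_ge hL hx
      have b := not_chain_ge hL hy
      exact h.2 (by omega)

end one

/-- the non-maximal part of the promotion chain -/
noncomputable def chainSet (L : P → ℕ) : Finset P :=
  Finset.univ.filter fun x => InPromotionChain L x ∧ ¬ IsMax x

theorem determined [Nonempty P] {L₁ L₂ M : P → ℕ} (h1 : L₁ ∈ labelings P) (h2 : L₂ ∈ labelings P)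
    (hM1 : promotion L₁ = M) (hM2 : promotion L₂ = M) (hC : chainSet L₁ = chainSet L₂) : L₁ = L₂ := by
  -- the tops agree
  obtain ⟨w₁, hw1, hm1⟩ := exists_top h1
  obtain ⟨w₂, hw2, hm2⟩ := exists_top h2
  have hw : w₁ = w₂ := by
    have hMl := mem_labelings.1 (hM1 ▸ promotion_mem h1 : M ∈ labelings P)
    apply hMl.2
    rw [← hM1, promotion_max h1 hw1 hm1, hM1, ← hM2, promotion_max h2 hw2 hm2]
  have hch : ∀ x, InPromotionChain L₁ x ↔ InPromotionChain L₂ x := by
    have hC' : ∀ x, (InPromotionChain L₁ x ∧ ¬ IsMax x) ↔ (InPromotionChain L₂ x ∧ ¬ IsMax x) := by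
      intro x
      have := Finset.ext_iff.1 hC x
      simpa [chainSet] using this
    intro x
    by_cases hm : IsMax x
    · constructor
      · intro hx
        rcases chain_comparable h1 hx hw1 with h | h | h
        · exact absurd h hm.not_lt
        · rw [h, hw]; exact hw2
        · exact absurd h hm1.not_lt
      · intro hx
        rcases chain_comparable h2 hx hw2 with h | h | h
        · exact absurd h hm.not_lt
        · rw [h, ← hw]; exact hw1
        · exact absurd h hm2.not_lt
    · have := hC' x
      tauto
  funext y
  by_cases hy : InPromotionChain L₁ y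
  · have hy2 := (hch y).1 hy
    have hy' := hy
    have hy2' := hy2
    rcases hy with ⟨_, ha⟩ | ⟨x₁, _, hx1, hs1⟩
    · rcases hy2 with ⟨_, hb⟩ | ⟨x₂, _, hx2, hs2⟩
      · rw [ha, hb]
      · have h3 := (chain_lt_iff h1 ((hch x₂).2 hx2) hy').2 hs2.1
        have := ((mem_labelings.1 h1).1 x₂).1
        omega
    · rcases hy2 with ⟨_, hb⟩ | ⟨x₂, _, hx2, hs2⟩
      · have h3 := (chain_lt_iff h2 ((hch x₁).1 hx1) hy2').2 hs1.1
        have := ((mem_labelings.1 h2).1 x₁).1
        omega
      · have a1 := no_between h1 hx1 hs1 ((hch x₂).2 hx2) hs2.1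
        have a2 := no_between h2 hx2 hs2 ((hch x₁).1 hx1) hs1.1
        have hx : x₁ = x₂ := le_antisymm a2 a1
        subst hx
        have e1 : M x₁ = L₁ y - 1 := by rw [← hM1]; exact promotion_succ h1 hx1 hs1
        have e2 : M x₁ = L₂ y - 1 := by rw [← hM2]; exact promotion_succ h2 hx2 hs2
        have := ((mem_labelings.1 h1).1 y).1
        have := ((mem_labelings.1 h2).1 y).1
        omega
  · have hy2 : ¬ InPromotionChain L₂ y := fun h => hy ((hch y).2 h)
    have e1 : M y = L₁ y - 1 := by rw [← hM1]; exact promotion_not h1 hy
    have e2 : M y = L₂ y - 1 := by rw [← hM2]; exact promotion_not h2 hy2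
    have := ((mem_labelings.1 h1).1 y).1
    have := ((mem_labelings.1 h2).1 y).1
    omega

/-- chains (including the empty one) inside a finset -/
noncomputable def numChains (T : Finset P) : ℕ :=
  #(T.powerset.filter fun C : Finset P => IsChain (· ≤ ·) (C : Set P))

/-- sorted elements below `v` -/
noncomputable def sortedBelow (M : P → ℕ) (v : P) : Finset P :=
  Finset.univ.filter fun x => x < v ∧ ∀ y, x < y → M x < M y

theorem preimages_le [Nonempty P] (M : P → ℕ) (v : P) (hv : M v = Fintype.card P)
    (hinj : Function.Injective M) :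
    #((labelings P).filter fun L => promotion L = M) ≤
      if IsMax v then numChains (sortedBelow M v) else 0 := by
  have hsub : ∀ L ∈ (labelings P).filter (fun L => promotion L = M),
      IsMax v ∧ InPromotionChain L v ∧ chainSet L ∈
        ((sortedBelow M v).powerset.filter fun C : Finset P => IsChain (· ≤ ·) (C : Set P)) := by
    intro L hL
    obtain ⟨hL, hM⟩ := mem_filter.1 hL
    obtain ⟨w, hw, hm⟩ := exists_top hL
    have hwv : w = v := by
      apply hinj
      rw [hv, ← hM, promotion_max hL hw hm]
    subst hwv
    refine ⟨hm, hw, ?_⟩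
    rw [mem_filter, mem_powerset]
    constructor
    · intro x hx
      simp only [chainSet, mem_filter, mem_univ, true_and] at hx
      obtain ⟨hx, hxm⟩ := hx
      simp only [sortedBelow, mem_filter, mem_univ, true_and]
      constructor
      · rcases chain_comparable hL hx hw with h | h | h
        · exact h
        · exact absurd (h ▸ hm) hxm
        · exact absurd h hm.not_lt
      · intro y hxy
        obtain ⟨z, hz⟩ := exists_succ L x hxm
        have hzc := InPromotionChain.next x z hx hz
        have ex : M x = L z - 1 := by rw [← hM]; exact promotion_succ hL hx hz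
        have bz := (mem_labelings.1 hL).1 z
        have bx := (mem_labelings.1 hL).1 x
        have bxz := lab_lt hL hx hz
        by_cases hy : InPromotionChain L y
        · by_cases hmy : IsMax y
          · have : M y = Fintype.card P := by rw [← hM]; exact promotion_max hL hy hmy
            omega
          · obtain ⟨t, ht⟩ := exists_succ L y hmy
            have ey : M y = L t - 1 := by rw [← hM]; exact promotion_succ hL hy ht
            have h1 := lab_lt hL hy ht
            have h2 := hz.2 y hxy
            omega
        · have ey : M y = L y - 1 := by rw [← hM]; exact promotion_not hL hy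
          have h2 := hz.2 y hxy
          have h3 : L z ≠ L y := fun h => hy ((mem_labelings.1 hL).2 h ▸ hzc)
          omega
    · intro x hx y hy hne
      simp only [chainSet, coe_filter, mem_univ, true_and, Set.mem_setOf_eq] at hx hy
      rcases chain_comparable hL hx.1 hy.1 with h | h | h
      · exact Or.inl h.le
      · exact absurd h hne
      · exact Or.inr h.le
  by_cases hm : IsMax v
  · rw [if_pos hm, numChains]
    apply Finset.card_le_card_of_injOn chainSet
    · intro L hL
      exact (hsub L hL).2.2
    · intro L hL L' hL' h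
      obtain ⟨hL, hM⟩ := mem_filter.1 hL
      obtain ⟨hL', hM'⟩ := mem_filter.1 hL'
      exact determined hL hL' hM hM' h
  · rw [if_neg hm]
    simp only [nonpos_iff_eq_zero, card_eq_zero]
    rw [Finset.eq_empty_iff_forall_notMem]
    intro L hL
    exact hm (hsub L hL).1


/-! ### words -/

noncomputable def WW : ℕ → Finset P → Finset (List P)
  | 0, _ => {[]}
  | k + 1, s => s.biUnion fun x => (WW k (s.erase x)).image (fun l => x :: l)

theorem mem_WW (k : ℕ) (s : Finset P) (l : List P) :
    l ∈ WW k s ↔ l.Nodup ∧ (∀ x ∈ l, x ∈ s) ∧ l.length = k := by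
  induction k generalizing s l with
  | zero =>
    simp only [WW, mem_singleton]
    constructor
    · rintro rfl; simp
    · rintro ⟨_, _, h⟩; exact List.length_eq_zero_iff.1 h
  | succ k ih =>
    simp only [WW, mem_biUnion, mem_image]
    constructor
    · rintro ⟨x, hx, l', hl', rfl⟩
      obtain ⟨h1, h2, h3⟩ := (ih _ _).1 hl'
      refine ⟨List.nodup_cons.2 ⟨fun h => by simpa using h2 x h, h1⟩, ?_, by simp [h3]⟩
      intro y hy
      rcases List.mem_cons.1 hy with rfl | hy
      · exact hx
      · exact mem_of_mem_erase (h2 y hy)
    · rintro ⟨h1, h2, h3⟩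
      rcases l with _ | ⟨x, l'⟩
      · simp at h3
      · obtain ⟨h4, h5⟩ := List.nodup_cons.1 h1
        refine ⟨x, h2 x (by simp), l', (ih _ _).2 ⟨h5, ?_, by simpa using h3⟩, rfl⟩
        intro y hy
        exact mem_erase.2 ⟨fun h => h4 (h ▸ hy), h2 y (by simp [hy])⟩

theorem sum_WW (k : ℕ) (s : Finset P) (f : List P → ℚ) :
    ∑ l ∈ WW k s, f l = (k.factorial : ℚ) * EE k s f := by
  induction k generalizing s f with
  | zero => simp [WW, EE]
  | succ k ih =>
    rw [WW, Finset.sum_biUnion]
    · have h1 : ∀ x ∈ s, ∑ l ∈ (WW k (s.erase x)).image (fun l => x :: l), f l =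
          (k.factorial : ℚ) * EE k (s.erase x) (fun l => f (x :: l)) := by
        intro x hx
        rw [Finset.sum_image (fun a _ b _ h => List.tail_eq_of_cons_eq h)]
        exact ih _ (fun l => f (x :: l))
      rw [Finset.sum_congr rfl h1, EE, ← Finset.mul_sum, Nat.factorial_succ]
      push_cast
      field_simp
    · intro x _ y _ hxy
      rw [Function.onFun, Finset.disjoint_left]
      intro l hl hl'
      obtain ⟨a, _, rfl⟩ := mem_image.1 hl
      obtain ⟨b, _, hb⟩ := mem_image.1 hl'
      exact hxy (List.head_eq_of_cons_eq hb).symm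

noncomputable def SS : List P → Finset P
  | [] => ∅
  | x :: l => insert x ((SS l).filter (fun y => ¬ y < x))

theorem SS_sub (l : List P) : ∀ x ∈ SS l, x ∈ l := by
  induction l with
  | nil => simp [SS]
  | cons a l ih =>
    intro x hx
    simp only [SS, mem_insert, mem_filter] at hx
    rcases hx with rfl | ⟨h, _⟩
    · simp
    · simp [ih x h]

theorem SS_filter (p : P → Prop) [DecidablePred p] (hp : ∀ x y, x < y → p x → p y) (l : List P) :
    SS (l.filter p) = (SS l).filter p := by
  induction l with
  | nil => simp [SS]
  | cons a l ih =>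
    by_cases ha : p a
    · have : (a :: l).filter p = a :: l.filter p := by simp [ha]
      rw [this, SS, SS, ih]
      ext y
      simp only [mem_insert, mem_filter]
      constructor
      · rintro (rfl | ⟨⟨h1, h2⟩, h3⟩)
        · exact ⟨Or.inl rfl, ha⟩
        · exact ⟨Or.inr ⟨h1, h3⟩, h2⟩
      · rintro ⟨rfl | ⟨h1, h3⟩, h2⟩
        · exact Or.inl rfl
        · exact Or.inr ⟨⟨h1, h2⟩, h3⟩
    · have : (a :: l).filter p = l.filter p := by simp [ha]
      rw [this, SS, ih]
      ext y
      simp only [mem_insert, mem_filter]
      constructor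
      · rintro ⟨h1, h2⟩
        exact ⟨Or.inr ⟨h1, fun h => ha (hp _ _ h h2)⟩, h2⟩
      · rintro ⟨rfl | ⟨h1, h3⟩, h2⟩
        · exact absurd h2 ha
        · exact ⟨h1, h2⟩

theorem mem_SS (l : List P) (hl : l.Nodup) (x : P) :
    x ∈ SS l ↔ x ∈ l ∧ ∀ y ∈ l, x < y → l.idxOf x < l.idxOf y := by
  induction l with
  | nil => simp [SS]
  | cons a l ih =>
    obtain ⟨hal, hl'⟩ := List.nodup_cons.1 hl
    have ih := ih hl'
    simp only [SS, mem_insert, mem_filter]
    constructor
    · rintro (rfl | ⟨h1, h2⟩)
      · refine ⟨by simp, fun y hy hxy => ?_⟩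
        rw [List.idxOf_cons_self, List.idxOf_cons_ne _ hxy.ne]
        omega
      · obtain ⟨h3, h4⟩ := ih.1 h1
        have hax : a ≠ x := fun h => hal (h ▸ h3)
        refine ⟨by simp [h3], fun y hy hxy => ?_⟩
        have hya : y ≠ a := fun h => h2 (h ▸ hxy)
        have hyl : y ∈ l := by
          rcases List.mem_cons.1 hy with h | h
          · exact absurd h hya
          · exact h
        rw [List.idxOf_cons_ne _ hax, List.idxOf_cons_ne _ (Ne.symm hya)]
        exact Nat.succ_lt_succ (h4 y hyl hxy)
    · rintro ⟨h1, h2⟩
      by_cases hxa : x = a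
      · exact Or.inl hxa
      · right
        have hxl : x ∈ l := by
          rcases List.mem_cons.1 h1 with h | h
          · exact absurd h hxa
          · exact h
        constructor
        · rw [ih]
          refine ⟨hxl, fun y hy hxy => ?_⟩
          have hay : a ≠ y := fun h => hal (h ▸ hy)
          have := h2 y (by simp [hy]) hxy
          rw [List.idxOf_cons_ne _ (Ne.symm hxa), List.idxOf_cons_ne _ hay] at this
          exact Nat.lt_of_succ_lt_succ this
        · intro h
          have := h2 a (by simp) h
          rw [List.idxOf_cons_self] at this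
          omega

theorem numChains_insert (R : Finset P) (x : P) (hx : x ∉ R) (hR : ∀ y ∈ R, ¬ y < x) :
    numChains (insert x R) = numChains R + numChains (R.filter (fun y => x < y)) := by
  unfold numChains
  rw [Finset.powerset_insert, Finset.filter_union, Finset.card_union_of_disjoint]
  · congr 1
    refine Finset.card_bij' (fun C _ => C.erase x) (fun C _ => insert x C) ?_ ?_ ?_ ?_
    · intro C hC
      obtain ⟨h1, h2⟩ := mem_filter.1 hC
      obtain ⟨D, hD, rfl⟩ := mem_image.1 h1
      have hxD : x ∉ D := fun h => hx (mem_powerset.1 hD h)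
      rw [Finset.erase_insert hxD]
      rw [mem_filter, mem_powerset]
      constructor
      · intro y hy
        have hyR := mem_powerset.1 hD hy
        rw [mem_filter]
        refine ⟨hyR, ?_⟩
        have hne : x ≠ y := fun h => hxD (h ▸ hy)
        rcases h2 (by simp : x ∈ ((insert x D : Finset P) : Set P)) (by simp [hy] : y ∈ ((insert x D : Finset P) : Set P)) hne with h | h
        · exact lt_of_le_of_ne h hne
        · exact absurd (lt_of_le_of_ne h (Ne.symm hne)) (hR y hyR)
      · exact h2.mono (by simp)
    · intro C hC
      obtain ⟨h1, h2⟩ := mem_filter.1 hC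
      have h3 := mem_powerset.1 h1
      rw [mem_filter, mem_image]
      refine ⟨⟨C, mem_powerset.2 (h3.trans (filter_subset _ _)), rfl⟩, ?_⟩
      rw [Finset.coe_insert]
      apply h2.insert
      intro b hb _
      exact Or.inl (mem_filter.1 (h3 hb)).2.le
    · intro C hC
      obtain ⟨h1, h2⟩ := mem_filter.1 hC
      obtain ⟨D, hD, rfl⟩ := mem_image.1 h1
      have hxD : x ∉ D := fun h => hx (mem_powerset.1 hD h)
      simp only [Finset.erase_insert hxD]
    · intro C hC
      obtain ⟨h1, h2⟩ := mem_filter.1 hC
      have h3 := mem_powerset.1 h1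
      have hxC : x ∉ C := fun h => hx (mem_filter.1 (h3 h)).1
      simp only [Finset.erase_insert hxC]
  · rw [Finset.disjoint_left]
    intro C h1 h2
    obtain ⟨h3, _⟩ := mem_filter.1 h1
    obtain ⟨h4, _⟩ := mem_filter.1 h2
    obtain ⟨D, hD, rfl⟩ := mem_image.1 h4
    exact hx (mem_powerset.1 h3 (mem_insert_self x D))

theorem XX_eq (v : P) (n : ℕ) : ∀ l : List P, l.length = n → l.Nodup →
    XX v l = numChains ((SS l).filter (fun y => y < v)) := by
  induction n using Nat.strong_induction_on with
  | _ n ih =>
    intro l hl hnd
    cases l with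
    | nil =>
      rw [XX]
      simp only [SS, numChains, Finset.filter_empty, Finset.powerset_empty, Finset.filter_singleton]
      rw [if_pos (by simp)]
      simp
    | cons x l =>
      obtain ⟨hxl, hnd'⟩ := List.nodup_cons.1 hnd
      have hlen1 : (l.filter (fun y => decide (¬ y ≤ x))).length < n := by
        rw [← hl]; simp only [List.length_cons]; exact Nat.lt_succ_of_le (List.length_filter_le _ _)
      have hlen2 : (l.filter (fun y => decide (x < y))).length < n := by
        rw [← hl]; simp only [List.length_cons]; exact Nat.lt_succ_of_le (List.length_filter_le _ _)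
      rw [XX, ih _ hlen1 _ rfl (hnd'.filter _), ih _ hlen2 _ rfl (hnd'.filter _)]
      rw [SS_filter (fun y => ¬ y ≤ x) (fun a b hab ha hb => ha (hab.le.trans hb)),
        SS_filter (fun y => x < y) (fun a b hab ha => ha.trans hab)]
      set R := ((SS l).filter (fun y => ¬ y ≤ x)).filter (fun y => y < v) with hR
      have hxR : x ∉ R := by simp [hR]
      have hRx : ∀ y ∈ R, ¬ y < x := by
        intro y hy h
        simp only [hR, mem_filter] at hy
        exact hy.1.2 h.le
      have hxS : x ∉ SS l := fun h => hxl (SS_sub l x h)
      by_cases hxv : x < v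
      · rw [if_pos hxv]
        have e1 : (SS (x :: l)).filter (fun y => y < v) = insert x R := by
          ext y
          simp only [SS, hR, mem_filter, mem_insert]
          constructor
          · rintro ⟨rfl | ⟨h1, h2⟩, h3⟩
            · exact Or.inl rfl
            · exact Or.inr ⟨⟨h1, fun h => h2 (lt_of_le_of_ne h (fun he => hxS (he ▸ h1)))⟩, h3⟩
          · rintro (rfl | ⟨⟨h1, h2⟩, h3⟩)
            · exact ⟨Or.inl rfl, hxv⟩
            · exact ⟨Or.inr ⟨h1, fun h => h2 h.le⟩, h3⟩
        have e2 : ((SS l).filter (fun y => x < y)).filter (fun y => y < v) = R.filter (fun y => x < y) := by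
          ext y
          simp only [hR, mem_filter]
          constructor
          · rintro ⟨⟨h1, h2⟩, h3⟩; exact ⟨⟨⟨h1, not_le_of_gt h2⟩, h3⟩, h2⟩
          · rintro ⟨⟨⟨h1, h2⟩, h3⟩, h4⟩; exact ⟨⟨h1, h4⟩, h3⟩
        rw [e1, e2, numChains_insert R x hxR hRx]
        push_cast
        ring
      · rw [if_neg hxv]
        have e1 : (SS (x :: l)).filter (fun y => y < v) = R := by
          ext y
          simp only [SS, hR, mem_filter, mem_insert]
          constructor
          · rintro ⟨rfl | ⟨h1, h2⟩, h3⟩
            · exact absurd h3 hxv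
            · exact ⟨⟨h1, fun h => h2 (lt_of_le_of_ne h (fun he => hxS (he ▸ h1)))⟩, h3⟩
          · rintro ⟨⟨h1, h2⟩, h3⟩
            exact ⟨Or.inr ⟨h1, fun h => h2 h.le⟩, h3⟩
        rw [e1]
        push_cast
        ring

/-- the labeling of a word -/
noncomputable def labOf (l : List P) (x : P) : ℕ := l.idxOf x + 1

theorem exists_word {M : P → ℕ} (hM : M ∈ labelings P) [Nonempty P] :
    ∃ v, ∃ l ∈ WW (Fintype.card P - 1) ((Finset.univ : Finset P).erase v), labOf l = M := by
  have hb := mem_labelings.1 hM
  obtain ⟨v, hv⟩ := exists_label hM (Fintype.card P) Fintype.card_pos le_rfl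
  have hex : ∀ i : ℕ, ∃ x : P, i < Fintype.card P → M x = i + 1 := by
    intro i
    by_cases hi : i < Fintype.card P
    · obtain ⟨x, hx⟩ := exists_label hM (i + 1) (by omega) (by omega)
      exact ⟨x, fun _ => hx⟩
    · exact ⟨Classical.arbitrary P, fun h => absurd h hi⟩
  choose g hg using hex
  set n := Fintype.card P with hn
  have hnpos : 0 < n := Fintype.card_pos
  set l := (List.range (n - 1)).map g with hl
  have hnd : l.Nodup := by
    rw [hl, List.nodup_map_iff_inj_on List.nodup_range]
    intro i hi j hj hij
    have h1 := hg i (by have := List.mem_range.1 hi; omega)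
    have h2 := hg j (by have := List.mem_range.1 hj; omega)
    rw [hij] at h1
    omega
  have hlen : l.length = n - 1 := by simp [hl]
  refine ⟨v, l, (mem_WW _ _ _).2 ⟨hnd, ?_, hlen⟩, ?_⟩
  · intro x hx
    obtain ⟨i, hi, rfl⟩ := List.mem_map.1 hx
    have hi' := List.mem_range.1 hi
    refine mem_erase.2 ⟨fun h => ?_, mem_univ _⟩
    have h1 := hg i (by omega)
    rw [h, hv] at h1
    omega
  · funext x
    unfold labOf
    by_cases hx : M x = n
    · have : x = v := hb.2 (by rw [hx, hv])
      subst this
      rw [List.idxOf_of_notMem, hlen]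
      · omega
      · intro h
        obtain ⟨i, hi, h1⟩ := List.mem_map.1 h
        have hi' := List.mem_range.1 hi
        have h2 := hg i (by omega)
        rw [h1, hx] at h2
        omega
    · have h1 := (hb.1 x)
      have hi : M x - 1 < l.length := by rw [hlen]; omega
      have hgx : l[M x - 1] = x := by
        have h3 : l[M x - 1] = g (M x - 1) := by simp [hl]
        rw [h3]
        apply hb.2
        rw [hg (M x - 1) (by omega)]
        omega
      have h4 := hnd.idxOf_getElem (M x - 1) hi
      rw [hgx] at h4
      rw [h4]
      omega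

theorem sortedBelow_word (v : P) (hv : IsMax v) (l : List P)
    (hl : l ∈ WW (Fintype.card P - 1) ((Finset.univ : Finset P).erase v)) :
    sortedBelow (labOf l) v = (SS l).filter (fun y => y < v) := by
  obtain ⟨hnd, hsub, hlen⟩ := (mem_WW _ _ _).1 hl
  have hvl : v ∉ l := fun h => by simpa using hsub v h
  have hall : ∀ x, x ≠ v → x ∈ l := by
    have : l.toFinset = (Finset.univ : Finset P).erase v := by
      apply Finset.eq_of_subset_of_card_le
      · intro x hx; exact hsub x (List.mem_toFinset.1 hx)
      · rw [List.toFinset_card_of_nodup hnd, hlen, Finset.card_erase_of_mem (mem_univ v), Finset.card_univ]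
    intro x hx
    rw [← List.mem_toFinset, this]
    exact mem_erase.2 ⟨hx, mem_univ x⟩
  ext x
  simp only [sortedBelow, mem_filter, mem_univ, true_and]
  constructor
  · rintro ⟨h1, h2⟩
    refine ⟨(mem_SS l hnd x).2 ⟨hall x h1.ne, fun y hy hxy => ?_⟩, h1⟩
    have := h2 y hxy
    unfold labOf at this
    omega
  · rintro ⟨h1, h2⟩
    obtain ⟨h3, h4⟩ := (mem_SS l hnd x).1 h1
    refine ⟨h2, fun y hxy => ?_⟩
    unfold labOf
    by_cases hy : y = v
    · rw [hy, List.idxOf_of_notMem hvl]
      have := List.idxOf_lt_length_iff.2 h3
      omega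
    · have := h4 y (hall y hy) hxy
      omega

theorem card_labelings (P : Type*) [Fintype P] : #(labelings P) = (Fintype.card P).factorial := by
  have h1 : Fintype.card (P ≃ Fin (Fintype.card P)) = (Fintype.card P).factorial :=
    Fintype.card_equiv (Fintype.equivFin P)
  rw [← h1, ← Finset.card_univ]
  symm
  apply Finset.card_bij (fun e _ => fun x => (e x : ℕ) + 1)
  · intro e _
    rw [mem_labelings]
    refine ⟨fun x => ⟨by omega, (e x).isLt⟩, fun x y h => ?_⟩
    simp only [Nat.add_right_cancel_iff] at h
    exact e.injective (Fin.ext h)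
  · intro e _ e' _ h
    ext x
    have := congrFun h x
    simpa using this
  · intro L hL
    obtain ⟨hb, hinj⟩ := mem_labelings.1 hL
    let f : P → Fin (Fintype.card P) := fun x => ⟨L x - 1, by have := hb x; omega⟩
    have hf : Function.Injective f := by
      intro x y h
      have h2 : L x - 1 = L y - 1 := congrArg Fin.val h
      have := hb x; have := hb y
      exact hinj (by omega)
    have hbij : Function.Bijective f :=
      (Fintype.bijective_iff_injective_and_card f).2 ⟨hf, by simp⟩
    refine ⟨Equiv.ofBijective f hbij, mem_univ _, ?_⟩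
    funext x
    have := hb x
    simp only [Equiv.ofBijective_apply, f]
    omega

theorem main_bound [Nonempty P] :
    ∑ M ∈ labelings P, (#((labelings P).filter fun L => promotion L = M) : ℚ) ^ 2 ≤
      ((Fintype.card P).factorial : ℚ) * (((Fintype.card P : ℚ) + 2) * (Fintype.card P + 1) / 6) := by
  set n := Fintype.card P with hn
  have hnpos : 0 < n := Fintype.card_pos
  set F : (P → ℕ) → ℚ := fun M => (#((labelings P).filter fun L => promotion L = M) : ℚ) ^ 2 with hF
  set Sg : Finset (Σ _ : P, List P) :=
    (Finset.univ : Finset P).sigma (fun v => WW (n - 1) ((Finset.univ : Finset P).erase v)) with hSg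
  have h1 : ∑ M ∈ labelings P, F M ≤ ∑ p ∈ Sg, F (labOf p.2) := by
    refine le_trans ?_ (Finset.sum_image_le_of_nonneg (g := fun p : (Σ _ : P, List P) => labOf p.2) (f := F) (s := Sg)
      (fun u _ => sq_nonneg _))
    apply Finset.sum_le_sum_of_subset_of_nonneg
    · intro M hM
      obtain ⟨v, l, hl, rfl⟩ := exists_word hM
      exact mem_image.2 ⟨⟨v, l⟩, by rw [hSg, Finset.mem_sigma]; exact ⟨mem_univ _, hl⟩, rfl⟩
    · intro _ _ _; exact sq_nonneg _
  refine h1.trans ?_
  rw [hSg, Finset.sum_sigma]
  have h2 : ∀ v ∈ (Finset.univ : Finset P), ∑ l ∈ WW (n - 1) ((Finset.univ : Finset P).erase v), F (labOf l) ≤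
      if v ∈ maxs (Finset.univ : Finset P) then
        ∑ l ∈ WW (n - 1) ((Finset.univ : Finset P).erase v), (XX v l) ^ 2 else 0 := by
    intro v _
    have hmax : v ∈ maxs (Finset.univ : Finset P) ↔ IsMax v := by
      simp only [maxs, mem_filter, mem_univ, true_and]
      constructor
      · intro h b hb
        by_contra hbv
        exact h b trivial (lt_of_le_of_ne hb (fun he => hbv he.ge))
      · intro h y _; exact h.not_lt
    have h3 : ∀ l ∈ WW (n - 1) ((Finset.univ : Finset P).erase v), F (labOf l) ≤
        if IsMax v then (XX v l) ^ 2 else 0 := by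
      intro l hl
      obtain ⟨hnd, hsub, hlen⟩ := (mem_WW _ _ _).1 hl
      have hvl : v ∉ l := fun h => by simpa using hsub v h
      have hv : labOf l v = Fintype.card P := by
        unfold labOf
        rw [List.idxOf_of_notMem hvl, hlen]
        omega
      have hinj : Function.Injective (labOf l) := by
        have hall : ∀ x, x ≠ v → x ∈ l := by
          have : l.toFinset = (Finset.univ : Finset P).erase v := by
            apply Finset.eq_of_subset_of_card_le
            · intro x hx; exact hsub x (List.mem_toFinset.1 hx)
            · rw [List.toFinset_card_of_nodup hnd, hlen, Finset.card_erase_of_mem (mem_univ v), Finset.card_univ]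
          intro x hx
          rw [← List.mem_toFinset, this]
          exact mem_erase.2 ⟨hx, mem_univ x⟩
        intro x y hxy
        unfold labOf at hxy
        have hxy' : l.idxOf x = l.idxOf y := by omega
        by_cases hx : x = v
        · by_cases hy : y = v
          · rw [hx, hy]
          · have := List.idxOf_lt_length_iff.2 (hall y hy)
            rw [← hxy', hx, List.idxOf_of_notMem hvl] at this
            omega
        · by_cases hy : y = v
          · have := List.idxOf_lt_length_iff.2 (hall x hx)
            rw [hxy', hy, List.idxOf_of_notMem hvl] at this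
            omega
          · have e1 := List.idxOf_lt_length_iff.2 (hall x hx)
            have e2 := List.idxOf_lt_length_iff.2 (hall y hy)
            rw [← List.getElem_idxOf e1, ← List.getElem_idxOf e2]
            simp only [hxy']
      have h4 := preimages_le (labOf l) v hv hinj
      simp only [hF]
      by_cases hm : IsMax v
      · rw [if_pos hm] at h4 ⊢
        rw [XX_eq v _ l rfl hnd, ← sortedBelow_word v hm l hl]
        have h5 : (#((labelings P).filter fun L => promotion L = labOf l) : ℚ) ≤
            (numChains (sortedBelow (labOf l) v) : ℚ) := by exact_mod_cast h4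
        exact pow_le_pow_left₀ (by positivity) h5 2
      · rw [if_neg hm] at h4 ⊢
        rw [Nat.le_zero.1 h4]
        simp
    refine (Finset.sum_le_sum h3).trans ?_
    by_cases hm : IsMax v
    · simp only [if_pos hm, if_pos (hmax.2 hm)]
      exact le_rfl
    · have : v ∉ maxs (Finset.univ : Finset P) := fun h => hm (hmax.1 h)
      simp only [if_neg hm, if_neg this, Finset.sum_const_zero]
      exact le_rfl
  refine (Finset.sum_le_sum h2).trans ?_
  rw [← Finset.sum_filter]
  have h6 : (Finset.univ.filter fun v => v ∈ maxs (Finset.univ : Finset P)) = maxs Finset.univ := by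
    ext v; simp
  rw [h6]
  have h7 : ∑ v ∈ maxs (Finset.univ : Finset P),
      ∑ l ∈ WW (n - 1) ((Finset.univ : Finset P).erase v), (XX v l) ^ 2 =
      ((n - 1).factorial : ℚ) * GG (Finset.univ : Finset P) := by
    rw [GG, Finset.mul_sum]
    apply Finset.sum_congr rfl
    intro v _
    rw [sum_WW, Finset.card_univ]
  rw [h7]
  have h8 := GG_le n (Finset.univ : Finset P) (by rw [Finset.card_univ])
  have h9 : ((n - 1).factorial : ℚ) * n = (n.factorial : ℚ) := by
    obtain ⟨m, hm⟩ : ∃ m, n = m + 1 := ⟨n - 1, by omega⟩
    rw [hm, Nat.add_sub_cancel, Nat.factorial_succ]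
    push_cast
    ring
  calc ((n - 1).factorial : ℚ) * GG (Finset.univ : Finset P) ≤ ((n - 1).factorial : ℚ) * gg n :=
        mul_le_mul_of_nonneg_left h8 (by positivity)
    _ = (((n - 1).factorial : ℚ) * n) * (((n : ℚ) + 2) * (n + 1) / 6) := by unfold gg; ring
    _ = _ := by rw [h9]

/-- **Extended promotion maps labelings to labelings, and its degree of noninvertibility is at
most `(n+2)(n+1)/6` for every finite poset with `n ≥ 1` elements.** -/
theorem result (P : Type*) [PartialOrder P] [Fintype P] [Nonempty P] :
    (∀ L ∈ labelings P, promotion L ∈ labelings P) ∧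
      degNoninv (labelings P) promotion ≤
        ((Fintype.card P : ℚ) + 2) * ((Fintype.card P : ℚ) + 1) / 6 := by
  refine ⟨fun L hL => promotion_mem hL, ?_⟩
  have h1 := main_bound (P := P)
  have h2 : ((#(labelings P) : ℕ) : ℚ) = ((Fintype.card P).factorial : ℚ) := by
    rw [card_labelings]
  have h3 : (0 : ℚ) < ((Fintype.card P).factorial : ℚ) := by positivity
  unfold degNoninv
  rw [h2, div_le_iff₀ h3]
  refine (le_of_eq ?_).trans (h1.trans (le_of_eq ?_))
  · refine Finset.sum_congr rfl fun M _ => ?_
    congr!
  · ring

end Pool.Agent.Results.MP_180e15_co.ChainMaximises
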